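import Pool.Agent.helper60.EPT.SpecS

set_option autoImplicit false

namespace Pool.Agent.EPT

open D

theorem DFB_cg (f g : D → D) (hf : FP f) (h : ∀ x, f x = g x) : FP g := by
  have e : f = g := funext h
  rw [← e]
  exact hf

theorem DFB_toListEq (x : D) : x.toList = [] ↔ x = nil := by
  cases x <;> simp

theorem DFB_ofListEq (l : List D) : ofList l = nil ↔ l = [] := by
  cases l <;> simp

theorem DFB_fil (hL : CalL) (f l e g : D → D) (hf : FP f) (hl : FP l) (he : FP e) (P : D → D → Prop)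
    (inst : ∀ x a, Decidable (P x a)) (h : ∀ x a, f (cons a (e x)) ≠ nil ↔ P x a)
    (hg : ∀ x, g x = ofList ((l x).toList.filter fun a => decide (P x a))) : FP g := by
  refine DFB_cg _ _ (hL.filter f l e hf hl he) fun x => ?_
  rw [hg x]
  congr 1
  refine List.filter_congr fun a _ => ?_
  exact decide_eq_decide.2 (h x a)

theorem DFB_le (hC : Cal) (hL : CalL) (A l : D → D) (hA : FP A) (hl : FP l) :
    FP fun x => tv ((A x).toList.length ≤ (l x).toList.length) := by
  have h1 := hC.not A hA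
  have h2 := hL.drop (fun x => (A x).snd) l (hC.snd A hA) hl
  refine DFB_cg _ _ (hC.or _ _ h1 h2) fun x => ?_
  refine tv_congr _ _ ?_
  rw [tv_ne_nil, Ne, DFB_ofListEq, List.drop_eq_nil_iff]
  cases h : A x with
  | nil => simp
  | cons a b => simp

theorem DFB_l2 (hC : Cal) (l : D → D) (hl : FP l) : FP fun x => tv ((l x).toList.length = 2) := by
  have h1 := hC.snd _ (hC.snd l hl)
  refine DFB_cg _ _ (hC.and _ _ (hC.snd l hl) (hC.not _ h1)) fun x => ?_
  refine tv_congr _ _ ?_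
  rw [tv_ne_nil]
  cases h : l x with
  | nil => simp
  | cons a b =>
    cases b with
    | nil => simp
    | cons b c => cases c <;> simp

theorem DFB_l3 (hC : Cal) (l : D → D) (hl : FP l) : FP fun x => tv ((l x).toList.length = 3) := by
  have h1 := hC.snd _ (hC.snd l hl)
  refine DFB_cg _ _ (hC.and _ _ h1 (hC.not _ (hC.snd _ h1))) fun x => ?_
  refine tv_congr _ _ ?_
  rw [tv_ne_nil]
  cases h : l x with
  | nil => simp
  | cons a b =>
    cases b with
    | nil => simp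
    | cons b c =>
      cases c with
      | nil => simp
      | cons c d => cases d <;> simp

theorem DFB_len (hC : Cal) (j : ℕ) (hj : j = 2 ∨ j = 3) (l : D → D) (hl : FP l) :
    FP fun x => tv ((l x).toList.length = j) := by
  rcases hj with rfl | rfl
  · exact DFB_l2 hC l hl
  · exact DFB_l3 hC l hl

theorem DFB_flw (hC : Cal) (hL : CalL) (hDFA : DFA_stmt) (j : ℕ) (hj : j = 2 ∨ j = 3) (F H : D → D) (hF : FP F) (hH : FP H) :
    FP fun x => flw (F x) j (H x) := by
  have h1 := DFB_len hC j hj (fun y => y.fst) (hC.fst _ hC.id)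
  have h2 := hDFA.1 (fun y => H y.snd) (fun y => y.fst) (hC.comp H _ hH (hC.snd _ hC.id)) (hC.fst _ hC.id)
  refine DFB_fil hL _ F (fun x => x) _ (hC.and _ _ h1 h2) hF hC.id (fun x c => c.toList.length = j ∧ sb (H x) c)
    (fun x c => inferInstance) (fun x c => ?_) (fun x => rfl)
  rw [tv_ne_nil, tv_ne_nil, tv_ne_nil]
  rfl

theorem DFB_ptD (hC : Cal) (hL : CalL) (hDFA : DFA_stmt) (j : ℕ) (hj : j = 2 ∨ j = 3) (F H : D → D) (hF : FP F) (hH : FP H) :
    FP fun x => ptD (F x) j (H x) := by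
  have h1 := hL.mem (fun z => z.fst) (fun z => H z.snd.snd) (hC.fst _ hC.id) (hC.comp H _ hH (hC.snd _ (hC.snd _ hC.id)))
  have h2 : FP fun y : D => ofList (y.fst.toList.filter fun l => l ∉ (H y.snd).toList) := by
    refine DFB_fil hL _ (fun y => y.fst) (fun y => y) _ (hC.not _ h1) (hC.fst _ hC.id) hC.id (fun y l => l ∉ (H y.snd).toList)
      (fun x c => inferInstance) (fun x c => ?_) (fun x => rfl)
    rw [tv_ne_nil, tv_eq_nil]
    rfl
  exact hL.map _ _ (fun x => x) h2 (DFB_flw hC hL hDFA j hj F H hF hH) hC.id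

theorem DFB_h1 (hC : Cal) (hL : CalL) (F : D → D) (hF : FP F) : FP fun x => h1 (F x) := by
  have a1 := hL.map (fun z => cons z.fst nil) (fun y => y.fst) (fun y => y) (hC.cons _ _ (hC.fst _ hC.id) (hC.const nil))
    (hC.fst _ hC.id) hC.id
  refine DFB_cg _ _ (hL.flatMap _ F (fun x => x) a1 hF hC.id) fun x => ?_
  simp [h1]

theorem DFB_h2 (hC : Cal) (hL : CalL) (F : D → D) (hF : FP F) : FP fun x => h2 (F x) := by
  have b1 := hC.eq (fun w => w.fst) (fun w => w.snd.fst) (hC.fst _ hC.id) (hC.fst _ (hC.snd _ hC.id))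
  have b2 : FP fun z : D => ofList (z.snd.fst.toList.filter fun l' => l' ≠ z.fst) := by
    refine DFB_fil hL _ (fun z => z.snd.fst) (fun z => z) _ (hC.not _ b1) (hC.fst _ (hC.snd _ hC.id)) hC.id (fun z l' => l' ≠ z.fst)
      (fun x c => inferInstance) (fun x c => ?_) (fun x => rfl)
    rw [tv_ne_nil, tv_eq_nil]
    rfl
  have b3 := hL.map (fun w => cons w.snd.fst (cons w.fst nil)) _ (fun z => z)
    (hC.cons _ _ (hC.fst _ (hC.snd _ hC.id)) (hC.cons _ _ (hC.fst _ hC.id) (hC.const nil))) b2 hC.id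
  have b4 := hL.flatMap _ (fun y => y.fst) (fun y => y) b3 (hC.fst _ hC.id) hC.id
  refine DFB_cg _ _ (hL.flatMap _ F (fun x => x) b4 hF hC.id) fun x => ?_
  simp [h2]

theorem DFB_cn (hC : Cal) (hL : CalL) (hDFA : DFA_stmt) (j : ℕ) (hj : j = 2 ∨ j = 3) (A F hs : D → D) (hA : FP A) (hF : FP F)
    (hh : FP hs) : FP fun x => cn (A x).toList.length j (F x) (hs x) := by
  have a1 := DFB_flw hC hL hDFA j hj (fun y => F y.snd) (fun y => y.fst) (hC.comp F _ hF (hC.snd _ hC.id)) (hC.fst _ hC.id)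
  have a2 := DFB_le hC hL (fun y => A y.snd) _ (hC.comp A _ hA (hC.snd _ hC.id)) a1
  refine DFB_fil hL _ hs (fun x => x) _ a2 hh hC.id (fun x H => (A x).toList.length ≤ (flw (F x) j H).toList.length)
    (fun x c => inferInstance) (fun x c => ?_) (fun x => rfl)
  rw [tv_ne_nil]
  rfl

theorem DFB_two (hC : Cal) (hL : CalL) (hDFA : DFA_stmt) (j : ℕ) (hj : j = 2 ∨ j = 3) (F H : D → D) (hF : FP F) (hH : FP H) :
    FP fun x => two (F x) j (H x) := by
  have a1 := hDFA.2 _ (hC.cons _ _ hH hF)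
  have a2 := hDFA.2 _ (hL.app _ _ (DFB_ptD hC hL hDFA j hj F H hF hH) hF)
  exact hC.cons _ _ a1 (hC.cons _ _ a2 (hC.const nil))

theorem DFB_ite (hC : Cal) (c f g : D → D) (hc : FP c) (hf : FP f) (hg : FP g) : FP fun x => if c x ≠ nil then f x else g x := by
  refine DFB_cg _ _ (hC.cond c f g hc hf hg) fun x => ?_
  by_cases h : c x = nil
  · rw [if_pos h, if_neg (not_not.2 h)]
  · rw [if_neg h, if_pos h]

theorem DFB_stp (hC : Cal) (hL : CalL) (hDFA : DFA_stmt) (A B F : D → D) (hA : FP A) (hB : FP B) (hF : FP F) :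
    FP fun x => stp (A x).toList.length (B x).toList.length (F x) := by
  have c1 := DFB_cn hC hL hDFA 2 (Or.inl rfl) A F _ hA hF (DFB_h1 hC hL F hF)
  have c2 := DFB_cn hC hL hDFA 3 (Or.inr rfl) A F _ hA hF (DFB_h2 hC hL F hF)
  have c3 := DFB_cn hC hL hDFA 3 (Or.inr rfl) B F _ hB hF (DFB_h1 hC hL F hF)
  have t1 := DFB_two hC hL hDFA 2 (Or.inl rfl) F _ hF (hC.fst _ c1)
  have t2 := DFB_two hC hL hDFA 3 (Or.inr rfl) F _ hF (hC.fst _ c2)
  have t3 := DFB_two hC hL hDFA 3 (Or.inr rfl) F _ hF (hC.fst _ c3)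
  exact DFB_ite hC _ _ _ c1 t1 (DFB_ite hC _ _ _ c2 t2 (DFB_ite hC _ _ _ c3 t3 (hC.cons _ _ hF (hC.const nil))))

theorem DFB (hC : Cal) (hL : CalL) (hDFA : DFA_stmt) : DFB_stmt := by
  have e : FP fun y : D => y.snd := hC.snd _ hC.id
  have a1 := DFB_stp hC hL hDFA (fun y => y.snd.fst.fst) (fun y => y.snd.fst.snd) (fun y => y.fst)
    (hC.fst _ (hC.fst _ e)) (hC.snd _ (hC.fst _ e)) (hC.fst _ hC.id)
  exact hL.flatMap _ (fun x => x.snd) (fun x => x) a1 e hC.id

end Pool.Agent.EPT
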